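import Pool.Agent.Y887.QK.Stm

/-!
Project T2: the form determines the prime and the point.
-/

set_option autoImplicit false

namespace Pool.Agent.Y391.T2

open Pool.Agent.Y887.QKS

theorem nd {ℓ x : ℕ} (h0 : 0 < x) (h1 : x < ℓ) : ¬ ℓ ∣ x := fun h =>
  absurd (Nat.le_of_dvd h0 h) (not_le.2 h1)

/-- The form determines the prime and the point. -/
theorem t_inj : S_inj := by
  intro a Q ℓ ℓ' b v b' v' ha hQ hℓ hℓ' hQℓ haℓ hQℓ' haℓ' hb hbℓ hv hvℓ hb' hbℓ' hv' hvℓ' h1 h2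
    hal hdvd
  unfold kK at hdvd
  unfold alK at hal hdvd
  generalize dK Q ℓ b v = d at h1 hdvd
  generalize dK Q ℓ' b' v' = d' at h2 hdvd
  have h1' : (ℓ : ℤ) * d = 1 + (Q * v) * (Q * b) := by exact_mod_cast h1
  have h2' : (ℓ' : ℤ) * d' = 1 + (Q * v') * (Q * b') := by exact_mod_cast h2
  have hal' : (ℓ : ℤ) ^ 2 + a * (Q * v) ^ 2 = ℓ' ^ 2 + a * (Q * v') ^ 2 := by exact_mod_cast hal
  push_cast at hdvd
  obtain ⟨al, halz⟩ : ∃ al : ℤ, al = (ℓ : ℤ) ^ 2 + a * (Q * v) ^ 2 := ⟨_, rfl⟩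
  obtain ⟨k, hk⟩ : ∃ k : ℤ, k = ℓ * (Q * b) + a * (Q * v) * d := ⟨_, rfl⟩
  obtain ⟨k', hk'⟩ : ∃ k' : ℤ, k' = ℓ' * (Q * b') + a * (Q * v') * d' := ⟨_, rfl⟩
  rw [← halz, ← hk, ← hk'] at hdvd
  have i1 : k * (Q * v) + ℓ = d * al := by
    rw [hk, halz]
    linear_combination (-(ℓ : ℤ)) * h1'
  have i2 : k' * (Q * v') + ℓ' = d' * al := by
    rw [hk', halz, hal']
    linear_combination (-(ℓ' : ℤ)) * h2'
  have i3 : al ∣ k * (Q * v') + ℓ' := by
    have : k * (Q * v') + ℓ' = (k - k') * (Q * v') + d' * al := by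
      rw [← i2]
      ring
    rw [this]
    exact dvd_add (hdvd.mul_right _) (dvd_mul_left _ _)
  have i4 : al ∣ k * (Q * v * ℓ' - Q * v' * ℓ) := by
    have : k * (Q * v * ℓ' - Q * v' * ℓ) =
        ℓ' * (k * (Q * v) + ℓ) - ℓ * (k * (Q * v') + ℓ') := by ring
    rw [this]
    refine dvd_sub (Dvd.dvd.mul_left ?_ _) (i3.mul_left _)
    rw [i1]
    exact dvd_mul_left _ _
  -- coprimality
  have hcop : IsCoprime al k := by
    rw [Int.isCoprime_iff_gcd_eq_one]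
    have g1 : (Int.gcd al k : ℤ) ∣ ℓ := by
      have : (ℓ : ℤ) = d * al - k * (Q * v) := by rw [← i1]; ring
      rw [this]
      exact dvd_sub ((Int.gcd_dvd_left _ _).mul_left _) ((Int.gcd_dvd_right _ _).mul_right _)
    have g2 : Int.gcd al k ∣ ℓ := by exact_mod_cast g1
    rcases (Nat.dvd_prime hℓ).1 g2 with g3 | g3
    · exact g3
    · exfalso
      have g4 : (ℓ : ℤ) ∣ al := by
        have := Int.gcd_dvd_left al k
        rwa [g3] at this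
      have g5 : (ℓ : ℤ) ∣ a * (Q * v) ^ 2 := by
        have : (a : ℤ) * (Q * v) ^ 2 = al - ℓ * ℓ := by rw [halz]; ring
        rw [this]
        exact dvd_sub g4 (dvd_mul_right _ _)
      have g6 : ℓ ∣ a * (Q * v) ^ 2 := by exact_mod_cast g5
      rcases (Nat.Prime.dvd_mul hℓ).1 g6 with g7 | g7
      · exact nd ha haℓ g7
      · rcases (Nat.Prime.dvd_mul hℓ).1 (hℓ.dvd_of_dvd_pow g7) with g8 | g8
        · exact nd hQ hQℓ g8
        · exact nd hv hvℓ g8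
  have i5 : al ∣ Q * v * ℓ' - Q * v' * ℓ := hcop.dvd_of_dvd_mul_left i4
  have pa : (1 : ℤ) ≤ a := by exact_mod_cast ha
  have pQ : (1 : ℤ) ≤ Q := by exact_mod_cast hQ
  have pv : (1 : ℤ) ≤ v := by exact_mod_cast hv
  have pv' : (1 : ℤ) ≤ v' := by exact_mod_cast hv'
  have pl : (1 : ℤ) ≤ ℓ := by exact_mod_cast hℓ.one_le
  have pl' : (1 : ℤ) ≤ ℓ' := by exact_mod_cast hℓ'.one_le
  have pW : (1 : ℤ) ≤ Q * v := one_le_mul_of_one_le_of_one_le pQ pv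
  have pW' : (1 : ℤ) ≤ Q * v' := one_le_mul_of_one_le_of_one_le pQ pv'
  obtain ⟨W, hW⟩ : ∃ W : ℤ, W = Q * v := ⟨_, rfl⟩
  obtain ⟨W', hW'⟩ : ∃ W' : ℤ, W' = Q * v' := ⟨_, rfl⟩
  rw [← hW] at pW halz i5 hal'
  rw [← hW'] at pW' i5 hal'
  have j1 : W ^ 2 < al := by
    have f1 := mul_nonneg (sub_nonneg.2 pa) (sq_nonneg W)
    have f2 : (0 : ℤ) < (ℓ : ℤ) ^ 2 := pow_pos (lt_of_lt_of_le one_pos pl) 2
    rw [sub_mul, one_mul] at f1
    rw [halz]
    linarith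
  have j2 : (ℓ : ℤ) ^ 2 < al := by
    rw [halz]
    have : 0 < (a : ℤ) * W ^ 2 := by positivity
    linarith
  have j1' : W' ^ 2 < al := by
    have f1 := mul_nonneg (sub_nonneg.2 pa) (sq_nonneg W')
    have f2 : (0 : ℤ) < (ℓ' : ℤ) ^ 2 := pow_pos (lt_of_lt_of_le one_pos pl') 2
    rw [sub_mul, one_mul] at f1
    rw [halz, hal']
    linarith
  have j2' : (ℓ' : ℤ) ^ 2 < al := by
    rw [halz, hal']
    have : 0 < (a : ℤ) * W' ^ 2 := by positivity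
    linarith
  have j3 : |W * ℓ' - W' * ℓ| < al := by
    have e1 : W * ℓ' < al := by
      have f1 := sq_nonneg (W - ℓ')
      rw [sub_sq] at f1
      linarith
    have e2 : W' * ℓ < al := by
      have f1 := sq_nonneg (W' - ℓ)
      rw [sub_sq] at f1
      linarith
    have e3 : 0 < W * ℓ' := by positivity
    have e4 : 0 < W' * ℓ := by positivity
    rw [abs_lt]
    constructor <;> linarith
  have i6 : W * ℓ' - W' * ℓ = 0 := Int.eq_zero_of_abs_lt_dvd i5 j3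
  have i7 : W * ℓ' = W' * ℓ := by linarith
  have i8 : al * ((ℓ' : ℤ) ^ 2 - ℓ ^ 2) = 0 := by
    have e1 : al * (ℓ' : ℤ) ^ 2 = ℓ ^ 2 * ℓ' ^ 2 + a * (W * ℓ') ^ 2 := by rw [halz]; ring
    have e2 : al * (ℓ : ℤ) ^ 2 = ℓ ^ 2 * ℓ' ^ 2 + a * (W' * ℓ) ^ 2 := by rw [halz, hal']; ring
    rw [mul_sub, e1, e2, i7]
    ring
  have hal0 : al ≠ 0 := by
    have : 0 < al := lt_of_le_of_lt (sq_nonneg W) j1
    exact this.ne'
  have i9 : (ℓ' : ℤ) ^ 2 = ℓ ^ 2 := by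
    have := (mul_eq_zero.1 i8).resolve_left hal0
    linarith
  have i10 : ℓ' = ℓ := by
    have e1 : ℓ' ^ 2 = ℓ ^ 2 := by exact_mod_cast i9
    exact Nat.pow_left_injective (by norm_num : 2 ≠ 0) e1
  subst i10
  have i11 : v = v' := by
    have e1 : W = W' := mul_right_cancel₀ (by positivity : (ℓ' : ℤ) ≠ 0) i7
    rw [hW, hW'] at e1
    have e2 : (v : ℤ) = v' := mul_left_cancel₀ (by positivity : (Q : ℤ) ≠ 0) e1
    exact_mod_cast e2
  subst i11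
  refine ⟨rfl, rfl, ?_⟩
  have i12 : (ℓ' : ℤ) ∣ (Q * v * Q : ℕ) * ((b : ℤ) - b') := by
    have : ((Q * v * Q : ℕ) : ℤ) * ((b : ℤ) - b') = ℓ' * (d - d') := by
      push_cast
      linear_combination h2' - h1'
    rw [this]
    exact dvd_mul_right _ _
  have i13 : (ℓ' : ℤ) ∣ (b : ℤ) - b' := by
    rcases (Nat.prime_iff_prime_int.1 hℓ).dvd_or_dvd i12 with e | e
    · exfalso
      have e' : ℓ' ∣ Q * v * Q := by exact_mod_cast e
      rcases (Nat.Prime.dvd_mul hℓ).1 e' with e1 | e1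
      · rcases (Nat.Prime.dvd_mul hℓ).1 e1 with e2 | e2
        · exact nd hQ hQℓ e2
        · exact nd hv hvℓ e2
      · exact nd hQ hQℓ e1
    · exact e
  have i14 : |(b : ℤ) - b'| < ℓ' := by
    have f1 : (0 : ℤ) < b := by exact_mod_cast hb
    have f2 : (0 : ℤ) < b' := by exact_mod_cast hb'
    have f3 : (b : ℤ) < ℓ' := by exact_mod_cast hbℓ
    have f4 : (b' : ℤ) < ℓ' := by exact_mod_cast hbℓ'
    rw [abs_lt]
    constructor <;> linarith
  have i15 := Int.eq_zero_of_abs_lt_dvd i13 i14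
  exact_mod_cast sub_eq_zero.1 i15

end Pool.Agent.Y391.T2
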